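import Pool.Agent.H51R3.PS.Common
import Pool.Agent.H841.PSRes
import Pool.Agent.H633R3.PS.Loc
import Pool.Agent.H291R3.PSB.Base

set_option autoImplicit false

/-!
# Minimal primes of modules of finite projective dimension (MP_07e2b8_al)

Disproof: over `R = T[x,w]/(x^2 - αx - βw, xw - γx, w^2 - γw)` (that is
`k[[x,y,z,w,s]]/(xy - zw, xs, ws)` for a power series ring `T` in `α = x - y`, `β = z`, `γ = s + w`)
there is an ideal `I` with seven generators such that `R/I` has a free resolution of length three and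
the only minimal prime of `R/I` is `(x,y,z,w)`, while `R` has a minimal prime which contains `s`.
-/

namespace Pool.Agent.Results.MP_07e2b8_al.MinimalPrime

open Pool.Agent.H607R3.PS H51R3.PS IsLocalRing

section

variable {T : Type} [CommRing T] [IsLocalRing T] [IsNoetherianRing T] [IsDomain T] {α β γ : T}

theorem cI_le (T : Type) [CommRing T] (α β γ : T) :
    cI (RR.x : RR T α β γ) RR.y RR.z RR.w RR.s ≤
      (Ideal.span {α, β} : Ideal T).comap (rho : RR T α β γ →+* T) := by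
  unfold cI
  rw [Ideal.span_le]
  rintro _ ⟨i, rfl⟩
  exact rho_gens i

theorem exists_minimal (hB : Base T α β γ) :
    ∃ p ∈ minimalPrimes (RR T α β γ), (RR.s : RR T α β γ) ∈ p := by
  have hint2 : Algebra.IsIntegral T
      (RR T α β γ ⧸ (Ideal.span {RR.s} : Ideal (RR T α β γ))) := inferInstance
  obtain ⟨Q, -, hQ, hQ2⟩ := Ideal.exists_ideal_over_prime_of_isIntegral
    (S := RR T α β γ ⧸ (Ideal.span {RR.s} : Ideal (RR T α β γ))) (⊥ : Ideal T) ⊥
    (by
      rw [← RingHom.ker_eq_comap_bot, (RingHom.injective_iff_ker_eq_bot _).mp (injA T α β γ)])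
  have hp' : (Q.comap (Ideal.Quotient.mk (Ideal.span {RR.s} : Ideal (RR T α β γ)))).IsPrime :=
    Ideal.comap_isPrime _ _
  obtain ⟨p, hp, hpp⟩ := Ideal.exists_minimalPrimes_le
    (bot_le : (⊥ : Ideal (RR T α β γ)) ≤
      Q.comap (Ideal.Quotient.mk (Ideal.span {RR.s} : Ideal (RR T α β γ))))
  have hpprime : p.IsPrime := hp.1.1
  refine ⟨p, hp, ?_⟩
  have hw : (RR.w : RR T α β γ) ∉ p := by
    intro hw
    have h1 : Ideal.Quotient.mk (Ideal.span {RR.s} : Ideal (RR T α β γ)) RR.w ∈ Q := hpp hw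
    have h2 : algebraMap T (RR T α β γ ⧸ (Ideal.span {RR.s} : Ideal (RR T α β γ))) γ =
        Ideal.Quotient.mk (Ideal.span {RR.s} : Ideal (RR T α β γ)) RR.w := by
      change Ideal.Quotient.mk (Ideal.span {RR.s} : Ideal (RR T α β γ)) (RR.emb γ) = _
      rw [← RR.s_add_w, map_add, Ideal.Quotient.eq_zero_iff_mem.2
        (Ideal.mem_span_singleton_self RR.s), zero_add]
    have h3 : γ ∈ Q.comap (algebraMap T
        (RR T α β γ ⧸ (Ideal.span {RR.s} : Ideal (RR T α β γ)))) := by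
      rw [Ideal.mem_comap, h2]
      exact h1
    rw [hQ2, Ideal.mem_bot] at h3
    apply hB.notMem
    rw [h3]
    exact zero_mem _
  have h4 : (RR.w : RR T α β γ) * RR.s ∈ p := by
    rw [RR.ws]
    exact zero_mem _
  exact (hpprime.mem_or_mem h4).resolve_left hw

theorem min_eq (hB : Base T α β γ) (q : Ideal (RR T α β γ))
    (hq : q ∈ (cI (RR.x : RR T α β γ) RR.y RR.z RR.w RR.s).minimalPrimes) :
    q ≤ (Ideal.span {α, β} : Ideal T).comap (rho : RR T α β γ →+* T) := by
  have hqp : q.IsPrime := hq.1.1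
  have hq1 : cI (RR.x : RR T α β γ) RR.y RR.z RR.w RR.s ≤ q := hq.1.2
  have hprime := hB.prime2
  have hq0 : ((Ideal.span {α, β} : Ideal T).comap (rho : RR T α β γ →+* T)).IsPrime :=
    Ideal.comap_isPrime _ _
  refine hq.2 ⟨hq0, cI_le T α β γ⟩ ?_
  have hg : ∀ i : Fin 7, gens (RR.x : RR T α β γ) RR.y RR.z RR.w RR.s i ∈ q := fun i =>
    hq1 (Ideal.subset_span ⟨i, rfl⟩)
  have hy : (RR.y : RR T α β γ) ∈ q := hqp.mem_of_pow_mem 3 (hg 0)
  have hz : (RR.z : RR T α β γ) ∈ q := hqp.mem_of_pow_mem 2 (hg 1)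
  have hx : (RR.x : RR T α β γ) ∈ q := by
    apply hqp.mem_of_pow_mem 2
    have h1 : (RR.x : RR T α β γ) ^ 2 + RR.s ^ 2 * RR.z ∈ q := hg 3
    exact (Ideal.add_mem_iff_left q (Ideal.mul_mem_left _ _ hz)).1 h1
  have hw : (RR.w : RR T α β γ) ∈ q := by
    apply hqp.mem_of_pow_mem 4
    have h1 : (RR.w : RR T α β γ) ^ 4 + RR.s * RR.y * RR.z ∈ q := hg 4
    exact (Ideal.add_mem_iff_left q (Ideal.mul_mem_left _ _ hz)).1 h1
  have hle : (Ideal.span {α, β} : Ideal T) ≤ q.comap (RR.emb : T →+* RR T α β γ) := by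
    rw [Ideal.span_le]
    rintro t (rfl | rfl)
    · rw [SetLike.mem_coe, Ideal.mem_comap, ← RR.x_sub_y]
      exact Ideal.sub_mem _ hx hy
    · rw [SetLike.mem_coe, Ideal.mem_comap, ← RR.z_eq]
      exact hz
  intro u hu
  rw [RR.decomp u]
  refine Ideal.add_mem _ (Ideal.add_mem _ ?_ (Ideal.mul_mem_left _ _ hx))
    (Ideal.mul_mem_left _ _ hw)
  exact hle hu

end

/-- **Disproof of Q1 of MP_07e2b8_al.** There are a Noetherian local ring `R`, a nonzero finitely
generated `R`-module `N` with a finite projective resolution and a minimal prime `p` of `R` which is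
contained in no minimal prime of `N` (no prime minimal over the annihilator of `N`). -/
theorem result :
    ∃ (R : Type) (_ : CommRing R) (_ : IsNoetherianRing R) (_ : IsLocalRing R)
      (N : Type) (_ : AddCommGroup N) (_ : Module R N),
      Module.Finite R N ∧ Nontrivial N ∧
      (∃ P : CategoryTheory.ProjectiveResolution (ModuleCat.of R N), ∃ n : ℕ,
        ∀ i : ℕ, n ≤ i → CategoryTheory.Limits.IsZero (P.complex.X i)) ∧
      ∃ p ∈ minimalPrimes R, ∀ q ∈ (Module.annihilator R N).minimalPrimes, ¬ p ≤ q := by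
  obtain ⟨T, iT, iL, iN, iD, α, β, γ, hB⟩ := Pool.Agent.H291R3.PSB.taskBase
  obtain ⟨hα, hβ, hγ⟩ := mem_max hB
  have hloc : IsLocalRing (RR T α β γ) :=
    Pool.Agent.H607R3.PS.taskLoc T α β γ hα hβ hγ
  obtain ⟨p, hp, hsp⟩ := exists_minimal hB
  have hne : cI (RR.x : RR T α β γ) RR.y RR.z RR.w RR.s ≠ ⊤ := by
    intro h
    have h1 := cI_le T α β γ
    rw [h, top_le_iff] at h1
    exact (Ideal.comap_ne_top (rho : RR T α β γ →+* T) hB.prime2.ne_top) h1
  refine ⟨RR T α β γ, inferInstance, inferInstance, hloc,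
    RR T α β γ ⧸ cI (RR.x : RR T α β γ) RR.y RR.z RR.w RR.s, inferInstance, inferInstance,
    inferInstance, Ideal.Quotient.nontrivial_iff.2 hne,
    finRes_RR Pool.Agent.H607R3.PS.taskRes hγ hB.reg, p, hp, ?_⟩
  intro q hq hpq
  rw [Ideal.annihilator_quotient] at hq
  exact hB.notMem (min_eq hB q hq (hpq hsp))

end Pool.Agent.Results.MP_07e2b8_al.MinimalPrime
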